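import Mathlib

/-!
Admissible systems of pre-independence spaces in the sense of Oxley.  The families of independent
sets of the finitary and of the cofinitary matroids on the subsets of an infinite set form an
admissible system that contains every independence space and misses a B-matroid.
-/

set_option autoImplicit false

namespace Pool.Agent.Results.MP_cb2a9f_co.FinCofin

open Set
open scoped Matroid

variable {S : Type*}

/-- `I` is (the family of independent sets of) a pre-independence space on the set `W`. -/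
structure IsPreIndep (W : Set S) (I : Set (Set S)) : Prop where
  subset_ground : ∀ X ∈ I, X ⊆ W
  empty_mem : ∅ ∈ I
  down : ∀ X ∈ I, ∀ Y, Y ⊆ X → Y ∈ I
  exch : ∀ I₁ ∈ I, ∀ I₂ ∈ I, I₁.Finite → I₂.Finite → I₁.ncard < I₂.ncard →
    ∃ e ∈ I₂ \ I₁, I₁ ∪ {e} ∈ I

/-- `I` is an independence space on `W`. -/
def IsIndepSpace (W : Set S) (I : Set (Set S)) : Prop :=
  IsPreIndep W I ∧ ∀ Y, Y ⊆ W → (∀ F, F ⊆ Y → F.Finite → F ∈ I) → Y ∈ I

/-- The maximal members of `{Y ∈ I : Y ⊆ X}`. -/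
def maxIn (I : Set (Set S)) (X : Set S) : Set (Set S) :=
  {B | (B ∈ I ∧ B ⊆ X) ∧ ∀ Y ∈ I, Y ⊆ X → B ⊆ Y → Y = B}

/-- `B` is a basis of `I`: a maximal member of `I`. -/
def IsBasisOf (I : Set (Set S)) (B : Set S) : Prop :=
  B ∈ I ∧ ∀ Y ∈ I, B ⊆ Y → Y = B

/-- `I` is a B-matroid on `W`. -/
structure IsBMatroid (W : Set S) (I : Set (Set S)) : Prop where
  subset_ground : ∀ X ∈ I, X ⊆ W
  empty_mem : ∅ ∈ I
  down : ∀ X ∈ I, ∀ Y, Y ⊆ X → Y ∈ I
  ib1 : ∀ X, X ⊆ W → ∀ T ∈ I, T ⊆ X → ∃ B ∈ maxIn I X, T ⊆ B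
  ib2 : ∀ X, X ⊆ W → ∀ B₁ ∈ maxIn I X, ∀ B₂ ∈ maxIn I X, ∀ x ∈ B₁ \ B₂,
    ∃ y ∈ B₂ \ B₁, (B₁ \ {x}) ∪ {y} ∈ maxIn I X

/-- The restriction of `I` to `Z`. -/
def restr (I : Set (Set S)) (Z : Set S) : Set (Set S) := {Y | Y ⊆ Z ∧ Y ∈ I}

/-- The family `{Y ⊆ Z : Y ∪ B ∈ I}`. -/
def contr (I : Set (Set S)) (Z B : Set S) : Set (Set S) := {Y | Y ⊆ Z ∧ Y ∪ B ∈ I}

/-- The dual of `I` on `W`. -/
def dual (W : Set S) (I : Set (Set S)) : Set (Set S) :=
  {X | X ⊆ W ∧ ∃ B, IsBasisOf I B ∧ B ⊆ W \ X}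

/-- `D` is an admissible system on the subsets of `S`. -/
structure IsAdmissible (D : Set S → Set (Set (Set S))) : Prop where
  pre : ∀ W, ∀ I ∈ D W, IsPreIndep W I
  restr_mem : ∀ Z W, Z ⊆ W → ∀ I ∈ D W, restr I Z ∈ D Z
  exists_basis : ∀ Z W, Z ⊆ W → ∀ I ∈ D W, ∃ B, IsBasisOf (restr I (W \ Z)) B
  contr_eq : ∀ Z W, Z ⊆ W → ∀ I ∈ D W, ∀ B B', IsBasisOf (restr I (W \ Z)) B →
    IsBasisOf (restr I (W \ Z)) B' → contr I Z B = contr I Z B'
  contr_mem : ∀ Z W, Z ⊆ W → ∀ I ∈ D W, ∀ B, IsBasisOf (restr I (W \ Z)) B → contr I Z B ∈ D Z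
  dual_mem : ∀ W, ∀ I ∈ D W, dual W I ∈ D W
  dual_dual : ∀ W, ∀ I ∈ D W, dual W (dual W I) = I

/-- The independent sets of a matroid. -/
def ind (M : Matroid S) : Set (Set S) := {X | M.Indep X}

lemma mem_ind {M : Matroid S} {X : Set S} : X ∈ ind M ↔ M.Indep X := Iff.rfl

lemma ind_inj {M N : Matroid S} (hE : M.E = N.E) (h : ind M = ind N) : M = N :=
  Matroid.ext_indep hE fun I _ => by rw [← mem_ind, h, mem_ind]

lemma isPreIndep_ind (M : Matroid S) : IsPreIndep M.E (ind M) where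
  subset_ground X hX := Matroid.Indep.subset_ground hX
  empty_mem := M.empty_indep
  down X hX Y hY := Matroid.Indep.subset hX hY
  exch I₁ h₁ I₂ h₂ f₁ f₂ hc := by
    have h : I₁.encard < I₂.encard := by
      rw [← f₁.cast_ncard_eq, ← f₂.cast_ncard_eq]
      exact_mod_cast hc
    obtain ⟨e, he, hi⟩ := Matroid.Indep.augment (M := M) h₁ h₂ h
    refine ⟨e, he, ?_⟩
    rw [union_singleton]
    exact hi

lemma isBasisOf_ind {M : Matroid S} {B : Set S} : IsBasisOf (ind M) B ↔ M.IsBase B := by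
  rw [Matroid.isBase_iff_maximal_indep, maximal_iff]
  constructor
  · rintro ⟨h1, h2⟩
    exact ⟨h1, fun Y hY hBY => (h2 Y hY hBY).symm⟩
  · rintro ⟨h1, h2⟩
    exact ⟨h1, fun Y hY hBY => (h2 hY hBY).symm⟩

lemma restr_ind (M : Matroid S) (Z : Set S) : restr (ind M) Z = ind (M ↾ Z) := by
  ext Y
  simp only [restr, mem_ofPred_eq, mem_ind, Matroid.restrict_indep_iff]
  exact and_comm

lemma maxIn_ind {M : Matroid S} {X B : Set S} (hX : X ⊆ M.E) :
    B ∈ maxIn (ind M) X ↔ M.IsBasis B X := by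
  rw [Matroid.isBasis_iff hX]
  constructor
  · rintro ⟨⟨h1, h2⟩, h3⟩
    exact ⟨h1, h2, fun J hJ hBJ hJX => (h3 J hJ hJX hBJ).symm⟩
  · rintro ⟨h1, h2, h3⟩
    exact ⟨⟨h1, h2⟩, fun Y hY hYX hBY => (h3 Y hY hBY hYX).symm⟩

lemma contr_ind {M : Matroid S} {Z B : Set S} (hZ : Z ⊆ M.E)
    (hB : IsBasisOf (restr (ind M) (M.E \ Z)) B) :
    contr (ind M) Z B = ind (M ／ (M.E \ Z)) := by
  rw [restr_ind, isBasisOf_ind, Matroid.isBase_restrict_iff] at hB
  ext Y
  simp only [contr, mem_ofPred_eq, mem_ind]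
  rw [hB.contract_indep_iff]
  constructor
  · rintro ⟨h1, h2⟩
    refine ⟨h2, disjoint_left.2 fun x hx hx' => hx.2 (h1 hx')⟩
  · rintro ⟨h1, h2⟩
    refine ⟨fun x hx => ?_, h1⟩
    by_contra hxZ
    exact disjoint_left.1 h2 ⟨h1.subset_ground (Or.inl hx), hxZ⟩ hx

lemma dual_ind (M : Matroid S) : dual M.E (ind M) = ind M✶ := by
  ext X
  simp only [dual, mem_ofPred_eq, mem_ind, Matroid.dual_indep_iff_exists', isBasisOf_ind]
  constructor
  · rintro ⟨h1, B, hB, hBX⟩
    exact ⟨h1, B, hB, disjoint_left.2 fun x hx hx' => (hBX hx').2 hx⟩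
  · rintro ⟨h1, B, hB, hBX⟩
    exact ⟨h1, B, hB, fun x hx => ⟨hB.subset_ground hx, fun hx' => disjoint_left.1 hBX hx' hx⟩⟩

/-- The system of finitary and cofinitary matroids. -/
def finCofin (W : Set S) : Set (Set (Set S)) :=
  {I | ∃ M : Matroid S, M.E = W ∧ (M.Finitary ∨ M✶.Finitary) ∧ I = ind M}

lemma isAdmissible_finCofin : IsAdmissible (finCofin (S := S)) where
  pre := by
    rintro W I ⟨M, rfl, -, rfl⟩
    exact isPreIndep_ind M
  restr_mem := by
    rintro Z W hZ I ⟨M, rfl, hM, rfl⟩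
    refine ⟨M ↾ Z, rfl, ?_, restr_ind M Z⟩
    rcases hM with hM | hM
    · exact Or.inl inferInstance
    · right
      have h : M ↾ Z = M ＼ (M.E \ Z) := by
        rw [Matroid.delete_eq_restrict, sdiff_sdiff_cancel_left hZ]
      rw [h, Matroid.dual_delete]
      infer_instance
  exists_basis := by
    rintro Z W hZ I ⟨M, rfl, -, rfl⟩
    obtain ⟨B, hB⟩ := (M ↾ (M.E \ Z)).exists_isBase
    exact ⟨B, by rw [restr_ind, isBasisOf_ind]; exact hB⟩
  contr_eq := by
    rintro Z W hZ I ⟨M, rfl, -, rfl⟩ B B' hB hB'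
    rw [contr_ind hZ hB, contr_ind hZ hB']
  contr_mem := by
    rintro Z W hZ I ⟨M, rfl, hM, rfl⟩ B hB
    refine ⟨M ／ (M.E \ Z), ?_, ?_, contr_ind hZ hB⟩
    · rw [Matroid.contract_ground, sdiff_sdiff_cancel_left hZ]
    rcases hM with hM | hM
    · exact Or.inl inferInstance
    · right
      rw [Matroid.dual_contract]
      infer_instance
  dual_mem := by
    rintro W I ⟨M, rfl, hM, rfl⟩
    refine ⟨M✶, rfl, ?_, dual_ind M⟩
    rw [Matroid.dual_dual]
    exact hM.symm
  dual_dual := by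
    rintro W I ⟨M, rfl, -, rfl⟩
    rw [dual_ind]
    have := dual_ind M✶
    rw [Matroid.dual_dual, Matroid.dual_ground] at this
    exact this

lemma indepSpace_mem {W : Set S} {I : Set (Set S)} (h : IsIndepSpace W I) : I ∈ finCofin W := by
  obtain ⟨h1, h2⟩ := h
  let M := (IndepMatroid.ofFinitaryCardAugment W (fun X => X ∈ I) h1.empty_mem
    (fun X Y hY hXY => h1.down Y hY X hXY)
    (fun X Y hX hXf hY hYf hc => by
      obtain ⟨e, he, hi⟩ := h1.exch X hX Y hY hXf hYf hc
      rw [union_singleton] at hi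
      exact ⟨e, he.1, he.2, hi⟩)
    (fun Y hY => by
      refine h2 Y (fun x hx => ?_) hY
      exact h1.subset_ground _ (hY {x} (singleton_subset_iff.2 hx) (finite_singleton x))
        (mem_singleton x))
    (fun X hX => h1.subset_ground X hX))
  exact ⟨M.matroid, rfl, Or.inl inferInstance, rfl⟩

lemma isBMatroid_ind (M : Matroid S) : IsBMatroid M.E (ind M) where
  subset_ground := (isPreIndep_ind M).subset_ground
  empty_mem := (isPreIndep_ind M).empty_mem
  down := (isPreIndep_ind M).down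
  ib1 X hX T hT hTX := by
    obtain ⟨B, hB, hTB⟩ := Matroid.Indep.subset_isBasis_of_subset (M := M) hT hTX hX
    exact ⟨B, (maxIn_ind hX).2 hB, hTB⟩
  ib2 X hX B₁ h₁ B₂ h₂ x hx := by
    rw [maxIn_ind hX] at h₁ h₂
    have e₁ := (Matroid.isBase_restrict_iff hX).2 h₁
    have e₂ := (Matroid.isBase_restrict_iff hX).2 h₂
    obtain ⟨y, hy, hb⟩ := e₁.exchange e₂ hx
    refine ⟨y, hy, ?_⟩
    rw [maxIn_ind hX, union_singleton]
    exact (Matroid.isBase_restrict_iff hX).1 hb

/-- The rank one uniform matroid on `A`. -/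
def rankOne (A : Set S) : Matroid S :=
  (IndepMatroid.ofFinitaryCardAugment A (fun X => X ⊆ A ∧ X.Subsingleton)
    ⟨empty_subset _, subsingleton_empty⟩
    (fun X Y hY hXY => ⟨hXY.trans hY.1, hY.2.anti hXY⟩)
    (fun X Y hX hXf hY hYf hc => by
      have h1 : Y.ncard ≤ 1 := by
        rw [ncard_le_one hYf]
        exact fun a ha b hb => hY.2 ha hb
      have h2 : X.ncard = 0 := by omega
      rw [ncard_eq_zero hXf] at h2
      subst h2
      have h3 : Y.ncard ≠ 0 := by rw [ncard_empty] at hc; omega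
      obtain ⟨e, he⟩ := nonempty_of_ncard_ne_zero h3
      refine ⟨e, he, by simp, ?_, ?_⟩
      · simpa using hY.1 he
      · simp)
    (fun Y hY => by
      refine ⟨fun x hx => ?_, fun x hx y hy => ?_⟩
      · exact (hY {x} (singleton_subset_iff.2 hx) (finite_singleton x)).1 (mem_singleton x)
      · refine (hY {x, y} ?_ ?_).2 (by simp) (by simp)
        · rintro z (rfl | rfl)
          · exact hx
          · exact hy
        · exact (finite_singleton y).insert x)
    (fun X hX => hX.1)).matroid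

lemma rankOne_indep {A X : Set S} : (rankOne A).Indep X ↔ X ⊆ A ∧ X.Subsingleton := Iff.rfl

@[simp] lemma rankOne_ground (A : Set S) : (rankOne A).E = A := rfl

instance (A : Set S) : (rankOne A).Finitary := by
  unfold rankOne
  infer_instance

lemma rankOne_isBase {A B : Set S} (hA : A.Nonempty) :
    (rankOne A).IsBase B ↔ ∃ a ∈ A, B = {a} := by
  rw [← isBasisOf_ind]
  constructor
  · rintro ⟨h1, h2⟩
    rw [mem_ind, rankOne_indep] at h1
    rcases B.eq_empty_or_nonempty with rfl | ⟨b, hb⟩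
    · obtain ⟨a, ha⟩ := hA
      have := h2 {a} ⟨by simpa using ha, by simp⟩ (empty_subset _)
      simp at this
    · refine ⟨b, h1.1 hb, ?_⟩
      ext x
      constructor
      · intro hx
        exact h1.2 hx hb
      · rintro rfl
        exact hb
  · rintro ⟨a, ha, rfl⟩
    refine ⟨⟨by simpa using ha, by simp⟩, fun Y hY haY => ?_⟩
    rw [mem_ind, rankOne_indep] at hY
    ext x
    constructor
    · intro hx
      exact hY.2 hx (haY (mem_singleton a))
    · intro hx
      exact haY hx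

/-- an infinite circuit on `A` together with infinitely many parallel elements on `B` -/
def mixed (A B : Set S) (h : Disjoint A B) : Matroid S :=
  (rankOne A)✶.disjointSum (rankOne B) (by simpa using h)

lemma mixed_not_finitary {A B : Set S} (h : Disjoint A B) (hA : A.Infinite) :
    ¬ (mixed A B h).Finitary := by
  intro hF
  have h1 : (mixed A B h).Indep A := by
    apply hF.indep_of_forall_finite
    intro J hJ hJf
    unfold mixed
    rw [Matroid.disjointSum_indep_iff]
    simp only [Matroid.dual_ground, rankOne_ground]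
    refine ⟨?_, ?_, fun x hx => Or.inl (hJ hx)⟩
    · rw [Matroid.dual_indep_iff_exists']
      refine ⟨inter_subset_right, ?_⟩
      obtain ⟨a, ha, haJ⟩ := (hA.sdiff hJf).nonempty
      refine ⟨{a}, (rankOne_isBase hA.nonempty).2 ⟨a, ha, rfl⟩, ?_⟩
      rw [disjoint_singleton_right]
      exact fun h => haJ h.1
    · have : J ∩ B = ∅ := by
        ext x
        simp only [mem_inter_iff, mem_empty_iff_false, iff_false, not_and]
        exact fun hx hx' => disjoint_left.1 h (hJ hx) hx'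
      rw [this]
      exact Matroid.empty_indep _
  unfold mixed at h1
  rw [Matroid.disjointSum_indep_iff] at h1
  have h2 := h1.1
  simp only [Matroid.dual_ground, rankOne_ground, inter_self] at h2
  rw [Matroid.dual_indep_iff_exists'] at h2
  obtain ⟨-, C, hC, hAC⟩ := h2
  obtain ⟨a, ha, rfl⟩ := (rankOne_isBase hA.nonempty).1 hC
  exact disjoint_left.1 hAC ha (mem_singleton a)

lemma mixed_dual_not_finitary {A B : Set S} (h : Disjoint A B) (hA : A.Nonempty)
    (hB : B.Infinite) : ¬ (mixed A B h)✶.Finitary := by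
  intro hF
  have hbase : ∀ X, (mixed A B h).IsBase X ↔
      (∃ a ∈ A, X ∩ A = A \ {a}) ∧ (∃ b ∈ B, X ∩ B = {b}) ∧ X ⊆ A ∪ B := by
    intro X
    unfold mixed
    rw [Matroid.disjointSum_isBase_iff]
    simp only [Matroid.dual_ground, rankOne_ground]
    rw [Matroid.dual_isBase_iff', rankOne_isBase (hB.nonempty), rankOne_isBase hA]
    simp only [rankOne_ground]
    constructor
    · rintro ⟨⟨⟨a, ha, h1⟩, -⟩, h2, h3⟩
      refine ⟨⟨a, ha, ?_⟩, h2, h3⟩
      rw [← h1, sdiff_sdiff_cancel_left inter_subset_right]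
    · rintro ⟨⟨a, ha, h1⟩, h2, h3⟩
      refine ⟨⟨⟨a, ha, ?_⟩, inter_subset_right⟩, h2, h3⟩
      rw [h1, sdiff_sdiff_cancel_left (singleton_subset_iff.2 ha)]
  have hE : (mixed A B h).E = A ∪ B := by
    unfold mixed
    rw [Matroid.disjointSum_ground_eq]
    rfl
  have h1 : (mixed A B h)✶.Indep B := by
    apply hF.indep_of_forall_finite
    intro J hJ hJf
    rw [Matroid.dual_indep_iff_exists', hE]
    refine ⟨hJ.trans subset_union_right, ?_⟩
    obtain ⟨a, ha⟩ := hA
    obtain ⟨b, hb, hbJ⟩ := (hB.sdiff hJf).nonempty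
    refine ⟨(A \ {a}) ∪ {b}, (hbase _).2 ⟨⟨a, ha, ?_⟩, ⟨b, hb, ?_⟩, ?_⟩, ?_⟩
    · ext x
      simp only [mem_inter_iff, mem_union, mem_sdiff, mem_singleton_iff]
      constructor
      · rintro ⟨h3 | rfl, h4⟩
        · exact h3
        · exact (disjoint_left.1 h h4 hb).elim
      · intro h3
        exact ⟨Or.inl h3, h3.1⟩
    · ext x
      simp only [mem_inter_iff, mem_union, mem_sdiff, mem_singleton_iff]
      constructor
      · rintro ⟨h3 | rfl, h4⟩
        · exact (disjoint_left.1 h h3.1 h4).elim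
        · rfl
      · rintro rfl
        exact ⟨Or.inr rfl, hb⟩
    · rintro x (h3 | rfl)
      · exact Or.inl h3.1
      · exact Or.inr hb
    · rw [disjoint_left]
      rintro x hx (h3 | rfl)
      · exact disjoint_left.1 h h3.1 (hJ hx)
      · exact hbJ hx
  rw [Matroid.dual_indep_iff_exists'] at h1
  obtain ⟨-, C, hC, hBC⟩ := h1
  obtain ⟨-, ⟨b, hb, h2⟩, -⟩ := (hbase C).1 hC
  have : b ∈ C ∩ B := by rw [h2]; exact mem_singleton b
  exact disjoint_left.1 hBC hb this.1

/-- On every infinite set there is an admissible system containing all independence spaces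
which misses some B-matroid. -/
theorem result (S : Type*) [Infinite S] :
    ∃ D : Set S → Set (Set (Set S)), IsAdmissible D ∧
      (∀ W I, IsIndepSpace W I → I ∈ D W) ∧
      ∃ W I, IsBMatroid W I ∧ I ∉ D W := by
  refine ⟨finCofin, isAdmissible_finCofin, fun W I h => indepSpace_mem h, ?_⟩
  obtain ⟨A, hA, hAc⟩ : ∃ A : Set S, A.Infinite ∧ Aᶜ.Infinite := by
    let f : ℕ ↪ S := Infinite.natEmbedding S
    refine ⟨f '' {n | Even n}, ?_, ?_⟩
    · apply Set.Infinite.image f.injective.injOn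
      refine Set.infinite_of_not_bddAbove ?_
      rintro ⟨n, hn⟩
      have : 2 * (n + 1) ≤ n := hn ⟨n + 1, by ring⟩
      omega
    · have h1 : (f '' {n | ¬ Even n}).Infinite := by
        apply Set.Infinite.image f.injective.injOn
        refine Set.infinite_of_not_bddAbove ?_
        rintro ⟨n, hn⟩
        have : 2 * n + 1 ≤ n := hn (by simp [parity_simps])
        omega
      refine h1.mono ?_
      rintro x ⟨n, hn, rfl⟩ ⟨m, hm, hmn⟩
      exact hn (f.injective hmn ▸ hm)
  have hd : Disjoint A Aᶜ := disjoint_compl_right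
  refine ⟨(mixed A Aᶜ hd).E, ind (mixed A Aᶜ hd), isBMatroid_ind _, ?_⟩
  rintro ⟨M, hE, hM, hI⟩
  have : mixed A Aᶜ hd = M := ind_inj hE.symm hI
  subst this
  rcases hM with hM | hM
  · exact mixed_not_finitary hd hA hM
  · exact mixed_dual_not_finitary hd hA.nonempty hAc hM

end Pool.Agent.Results.MP_cb2a9f_co.FinCofin
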